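import Pool.Agent.Lib.MP_eff308_lc.T.FinG

/-!
# Recursion; towers exist; `κ < p(κ) ≤ t(κ)`
-/

open Cardinal Set Filter

universe u

namespace Pool.Agent.Lib.MP_eff308_lc.HT

open Pool.Agent.Lib.MP_eff308_lc.T

variable {κ : Cardinal.{u}}

/-- Recursion on a well-founded order with a requirement depending on the earlier values. -/
theorem exists_rec {W β : Type*} [LT W] [WellFoundedLT W] [Nonempty β]
    (Q : W → (W → β) → β → Prop)
    (hQ : ∀ i f g b, (∀ j, j < i → f j = g j) → Q i f b → Q i g b)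
    (hstep : ∀ i f, (∀ j, j < i → Q j f (f j)) → ∃ b, Q i f b) :
    ∃ f : W → β, ∀ i, Q i f (f i) := by
  classical
  let ext : (i : W) → ((j : W) → j < i → β) → W → β := fun i g j =>
    if hj : j < i then g j hj else Classical.arbitrary β
  let G : (i : W) → ((j : W) → j < i → β) → β := fun i g =>
    if hb : ∃ b, Q i (ext i g) b then hb.choose else Classical.arbitrary β
  let f : W → β := IsWellFounded.fix (fun a b : W => a < b) G
  have hf : ∀ i, f i = G i (fun j _ => f j) := fun i =>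
    IsWellFounded.fix_eq (fun a b : W => a < b) G i
  refine ⟨f, fun i => ?_⟩
  induction i using WellFoundedLT.induction with
  | ind i ih =>
    have hagree : ∀ j, j < i → f j = ext i (fun j _ => f j) j := by
      intro j hj
      simp only [ext, dif_pos hj]
    obtain ⟨b, hb⟩ := hstep i f ih
    have hex : ∃ b, Q i (ext i (fun j _ => f j)) b := ⟨b, hQ i _ _ b hagree hb⟩
    have h1 : f i = hex.choose := by
      rw [hf i]
      exact dif_pos hex
    rw [h1]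
    exact hQ i _ _ _ (fun j hj => (hagree j hj).symm) hex.choose_spec

theorem almost_of_small {A B : Set (KK κ)} (hAB : #(↥(A \ B)) < κ) : Almost A B := by
  unfold Almost
  rwa [mkKK]

theorem small_of_almost {A B : Set (KK κ)} (hAB : Almost A B) : #(↥(A \ B)) < κ := by
  unfold Almost at hAB
  rwa [mkKK] at hAB

/-- Closure points of a function. -/
def EE (ψ : KK κ → KK κ) : Set (KK κ) := {x | ∀ z, z < x → ψ z < x}

theorem freq_EE (hreg : κ.IsRegular) (h0 : ℵ₀ < κ) (ψ : KK κ → KK κ) :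
    ∃ᶠ x in atTop, x ∈ EE ψ := by
  have := neK hreg
  rw [Filter.frequently_atTop]
  intro b
  obtain ⟨x, hx, hcl⟩ := exists_closed hreg h0 ψ b
  exact ⟨x, hx.le, hcl⟩

/-- Any family of sets of closure points has the strong intersection property. -/
theorem sip_EE (hreg : κ.IsRegular) (h0 : ℵ₀ < κ) {T : Set (Set (KK κ))}
    (hT : ∀ B ∈ T, ∃ ψ : KK κ → KK κ, B = EE ψ) : SIP T := by
  intro G hG hlt
  rw [mkKK] at hlt ⊢
  choose ψ hψ using fun B : ↥G => hT B.1 (hG B.2)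
  have hb : ∀ z : KK κ, ∃ c, ∀ B : ↥G, ψ B z < c := fun z => bdd_range hreg hlt _
  choose φ hφ using hb
  apply card_of_freq hreg
  refine (freq_EE hreg h0 φ).mono fun x hx B hB => ?_
  rw [show B = EE (ψ ⟨B, hB⟩) from hψ ⟨B, hB⟩]
  exact fun z hz => (hφ z ⟨B, hB⟩).trans (hx z hz)

/-- A pseudointersection of sets of closure points can be replaced by a set of closure
points. -/
theorem EE_of_pi (hreg : κ.IsRegular) {A : Set (KK κ)} (hA : #(↥A) = κ) :
    ∃ ψ : KK κ → KK κ, ∀ φ : KK κ → KK κ, Almost A (EE φ) → Almost (EE ψ) (EE φ) := by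
  have hne := neK hreg
  have hnx : ∀ z : KK κ, ∃ y, z < y ∧ y ∈ A := by
    intro z
    obtain ⟨z', hz'⟩ := noMax hreg z
    obtain ⟨y, hy, hyA⟩ := (Filter.frequently_atTop.1 (freq_of_card hreg hA)) z'
    exact ⟨y, hz'.trans_le hy, hyA⟩
  choose ψ hψ1 hψ2 using hnx
  refine ⟨ψ, fun φ hAφ => ?_⟩
  obtain ⟨b, hb⟩ := almost_bdd hreg hAφ
  obtain ⟨b', hb'⟩ := noMax hreg b
  apply almost_of_small
  refine small_of_bdd (b := b') ?_
  rintro x ⟨hx, hxφ⟩
  by_contra hcon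
  have hbx : b < x := hb'.trans_le (not_lt.1 hcon)
  apply hxφ
  intro z hz
  have h1 := hx (max z b) (max_lt hz hbx)
  have h2 := hb _ (hψ2 (max z b)) ((le_max_right z b).trans (hψ1 _).le)
  exact (h2 z ((le_max_left z b).trans_lt (hψ1 _))).trans h1

/-- A strictly smaller set of closure points. -/
theorem EE_smaller (hreg : κ.IsRegular) (h0 : ℵ₀ < κ) (ψ : KK κ → KK κ) :
    ∃ φ : KK κ → KK κ, Almost (EE φ) (EE ψ) ∧ ¬ Almost (EE ψ) (EE φ) := by
  have hne := neK hreg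
  have hnx : ∀ z : KK κ, ∃ y, (z < y ∧ y ∈ EE ψ) ∧ ∀ w, z < w → w ∈ EE ψ → y ≤ w := by
    intro z
    obtain ⟨z', hz'⟩ := noMax hreg z
    obtain ⟨y, hy, hyA⟩ := (Filter.frequently_atTop.1 (freq_EE hreg h0 ψ)) z'
    obtain ⟨m, hm, hmin⟩ := (wellFounded_lt (α := KK κ)).has_min {w | z < w ∧ w ∈ EE ψ}
      ⟨y, hz'.trans_le hy, hyA⟩
    exact ⟨m, hm, fun w hw1 hw2 => not_lt.1 fun hlt => hmin w ⟨hw1, hw2⟩ hlt⟩
  choose φ hφ1 hφ2 using hnx
  refine ⟨φ, ?_, fun hcon => ?_⟩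
  · obtain ⟨b, hb⟩ : ∃ b : KK κ, ∀ w, ¬ w < b := by
      obtain ⟨m, -, hm⟩ := (wellFounded_lt (α := KK κ)).has_min Set.univ ⟨hne.some, trivial⟩
      exact ⟨m, fun w => hm w trivial⟩
    apply almost_of_small
    refine small_of_bdd (b := φ b) ?_
    rintro x ⟨hx, hxψ⟩
    by_contra hcon
    apply hxψ
    intro z hz
    have h1 := hx z hz
    exact ((hφ1 z).2 z (hφ1 z).1).trans h1
  · obtain ⟨b, hb⟩ := almost_bdd hreg hcon
    have h1 := hb (φ b) (hφ1 b).2 (hφ1 b).1.le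
    exact lt_irrefl _ (h1 b (hφ1 b).1)

/-- **Towers exist.** -/
theorem exists_tower (hreg : κ.IsRegular) (h0 : ℵ₀ < κ) :
    ∃ T : Set (Set (KK κ)), (∀ B ∈ T, #(↥B) = κ) ∧ SIP T ∧ StarWO T ∧ ¬ HasPI T := by
  classical
  by_contra hno
  push Not at hno
  let θ : Cardinal.{u} := Order.succ (2 ^ κ)
  have : Nonempty (Set (KK κ)) := ⟨∅⟩
  obtain ⟨f, hf⟩ := exists_rec (W := KK θ) (β := Set (KK κ))
    (fun α f b => (∃ ψ : KK κ → KK κ, b = EE ψ) ∧
      ∀ β, β < α → Almost b (f β) ∧ ¬ Almost (f β) b)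
    (fun α f g b hfg hb => ⟨hb.1, fun β hβ => by
      rw [← hfg β hβ]
      exact hb.2 β hβ⟩)
    (fun α f hf => by
      let T : Set (Set (KK κ)) := {B | ∃ β, β < α ∧ B = f β}
      have hTE : ∀ B ∈ T, ∃ ψ : KK κ → KK κ, B = EE ψ := by
        rintro B ⟨β, hβ, rfl⟩
        exact (hf β hβ).1
      have hT1 : ∀ B ∈ T, #(↥B) = κ := by
        intro B hB
        obtain ⟨ψ, rfl⟩ := hTE B hB
        exact card_of_freq hreg (freq_EE hreg h0 ψ)
      have hle : ∀ β γ, β ≤ γ → γ < α → Almost (f γ) (f β) := by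
        intro β γ hβγ hγ
        rcases hβγ.eq_or_lt with rfl | hlt
        · exact almost_refl hreg _
        · exact ((hf γ hγ).2 β hlt).1
      have hT3 : StarWO T := by
        intro S hS hSne
        have hW : {β | β < α ∧ f β ∈ S}.Nonempty := by
          obtain ⟨B, hB⟩ := hSne
          obtain ⟨β, hβ, rfl⟩ := hS hB
          exact ⟨β, hβ, hB⟩
        obtain ⟨β0, hβ0, hmin⟩ := (wellFounded_lt (α := KK θ)).has_min _ hW
        refine ⟨f β0, hβ0.2, fun B hB => ?_⟩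
        obtain ⟨β, hβ, rfl⟩ := hS hB
        exact hle _ _ (not_lt.1 (hmin β ⟨hβ, hB⟩)) hβ
      obtain ⟨A, hA, hAT⟩ := hno T hT1 (sip_EE hreg h0 hTE) hT3
      obtain ⟨ψ, hψ⟩ := EE_of_pi hreg (hA.trans mkKK)
      obtain ⟨φ, hφ1, hφ2⟩ := EE_smaller hreg h0 ψ
      refine ⟨EE φ, ⟨φ, rfl⟩, fun β hβ => ?_⟩
      obtain ⟨χ, hχ⟩ := (hf β hβ).1
      have h1 : Almost (EE ψ) (f β) := by
        rw [hχ]
        apply hψ
        rw [← hχ]
        exact hAT _ ⟨β, hβ, rfl⟩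
      exact ⟨almost_trans hreg hφ1 h1, fun hcon => hφ2 (almost_trans hreg h1 hcon)⟩)
  have hinj : Function.Injective f := by
    have key : ∀ β γ, β < γ → f β ≠ f γ := fun β γ hlt heq => by
      refine ((hf γ).2 β hlt).2 ?_
      rw [heq]
      exact almost_refl hreg _
    intro β γ heq
    rcases lt_trichotomy β γ with hlt | he | hlt
    · exact absurd heq (key _ _ hlt)
    · exact he
    · exact absurd heq.symm (key _ _ hlt)
  have h1 := Cardinal.mk_le_of_injective hinj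
  rw [mkKK, Cardinal.mk_set, mkKK] at h1
  exact absurd (Order.lt_succ ((2 : Cardinal.{u}) ^ κ)) (not_lt.2 h1)

theorem p_le_t (hreg : κ.IsRegular) (h0 : ℵ₀ < κ) : pNum κ ≤ tNum κ := by
  obtain ⟨T, hT1, hT2, hT3, hT4⟩ := exists_tower hreg h0
  have hne : {c | ∃ T : Set (Set (KK κ)), (∀ B ∈ T, #(↥B) = κ) ∧ SIP T ∧ StarWO T ∧
      ¬ HasPI T ∧ #(↥T) = c}.Nonempty := ⟨_, T, hT1, hT2, hT3, hT4, rfl⟩
  obtain ⟨T', h1, h2, -, h4, h5⟩ := csInf_mem hne
  exact csInf_le' ⟨T', h1, h2, h4, h5⟩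

/-- `κ < p(κ)`. -/
theorem kappa_lt (hreg : κ.IsRegular) (h0 : ℵ₀ < κ) : κ < pNum κ := by
  classical
  have hneK := neK hreg
  obtain ⟨T, hT1, hT2, hT3, hT4⟩ := exists_tower hreg h0
  have hne : {c | ∃ F : Set (Set (KK κ)), (∀ B ∈ F, #(↥B) = κ) ∧ SIP F ∧
      ¬ HasPI F ∧ #(↥F) = c}.Nonempty := ⟨_, T, hT1, hT2, hT4, rfl⟩
  obtain ⟨F, -, hF1, hF2, hF3⟩ := csInf_mem hne
  change #(↥F) = pNum κ at hF3
  by_contra hle
  rw [← hF3] at hle
  obtain ⟨d, hd1, hd2⟩ := exists_enum (W := KK κ) F ((not_lt.1 hle).trans mkKK.ge)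
  have hF' := sip_insert_univ hF1
  have hex : ∀ x : KK κ, ∃ y, x ≤ y ∧ ∀ n : Set.Iio x, y ∈ d n.1 := fun x =>
    sip_use hreg hF' (Cardinal.mk_Iio_toType_ord_lt x) (fun n : Set.Iio x => d n.1)
      (fun n => hd1 n.1) x
  choose f hf1 hf2 using hex
  have hX : ∃ᶠ x in (atTop : Filter (KK κ)), x ∈ (Set.univ : Set (KK κ)) := by
    have := atTop_neBot hreg
    simp [Filter.frequently_true_iff_neBot, this]
  obtain ⟨h1, h2⟩ := pi_of_selector hreg (f := f) hX (fun x _ => hf1 x)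
  refine hF2 ⟨_, h1.trans mkKK.symm, fun B hB => ?_⟩
  obtain ⟨w, rfl⟩ := hd2 B hB
  apply h2
  obtain ⟨w', hw'⟩ := noMax hreg w
  filter_upwards [eventually_ge_atTop w'] with x hx _
  exact hf2 x ⟨w, lt_of_lt_of_le hw' hx⟩

end Pool.Agent.Lib.MP_eff308_lc.HT
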