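import Pool.Agent.Lib.MP_eff308_lc.HT.Lb

/-!
# The hitting theorem
-/

open Cardinal Set Filter

universe u

namespace Pool.Agent.Lib.MP_eff308_lc.HT

open Pool.Agent.Lib.MP_eff308_lc.T

variable {κ : Cardinal.{u}} {ι : Type u} [LinearOrder ι] {T : ι → Set (KK κ)}

/-- Nodes with an element of `Z` beyond `g`. -/
def DD (Z : Set (KK κ)) (g : KK κ) : Set (Nd κ) := {t | ∃ x ∈ t.1, x ∈ Z ∧ g < x}

theorem qd_inter (h : Ctx κ) {P : Set (Nd κ)} (hP : Qd T P) {Z : Set (KK κ)}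
    (hZ : ∀ i, #(↥(Z ∩ T i)) = κ) (g : KK κ) : Qd T (P ∩ DD Z g) := by
  have hneK := neK h.reg
  constructor
  · intro t h1 h2
    obtain ⟨c, hc, hct⟩ := h1
    refine ⟨hP.clo t ⟨c, hc.1, hct⟩ fun x hx => ?_, ?_⟩
    · obtain ⟨c', hc', hct', hxc'⟩ := h2 x hx
      exact ⟨c', hc'.1, hct', hxc'⟩
    · obtain ⟨x, hx, hxZ, hgx⟩ := hc.2
      exact ⟨x, hct.1 hx, hxZ, hgx⟩
  · intro s i c
    obtain ⟨b, hb⟩ := s.2
    obtain ⟨g', hg'⟩ := noMax h.reg g
    obtain ⟨x, hx, hxZ, hxT⟩ := (Filter.frequently_atTop.1 (freq_of_card h.reg (hZ i)))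
      (max (max b c) g')
    obtain ⟨x', hx'⟩ := noMax h.reg x
    have hbx : b ≤ x := ((le_max_left _ _).trans (le_max_left _ _)).trans hx
    have hcx : c ≤ x := ((le_max_right _ _).trans (le_max_left _ _)).trans hx
    have hgx : g < x := hg'.trans_le ((le_max_right _ _).trans hx)
    have hlt : ∀ y ∈ s.1, y < x := fun y hy => (hb y hy).trans_le hbx
    have hxs : x ∉ s.1 := fun hxs => absurd (hb x hxs) (not_lt.2 hbx)
    let s' : Nd κ := ⟨insert x s.1, x', by
      rintro y (rfl | hy)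
      · exact hx'
      · exact (hlt y hy).trans hx'⟩
    have hss' : Le s.1 s'.1 := by
      refine ⟨Set.subset_insert _ _, ?_⟩
      rintro y (rfl | hy) z hz hyz
      · exact absurd (hlt z hz) (not_lt.2 hyz)
      · exact hy
    obtain ⟨t, htP, htR, htG⟩ := hP.dn s' i c
    have hxt : x ∈ t.1 := htR.1.1 (Set.mem_insert _ _)
    refine ⟨t, ⟨htP, x, hxt, hxZ, hgx⟩, ⟨hss'.trans htR.1, ⟨x, hxt, hxs⟩, ?_⟩, ?_⟩
    · intro y hy hys
      by_cases hyx : y = x
      · rw [hyx]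
        exact hxT
      · exact htR.2.2 y hy (fun hy' => hy'.elim hyx hys)
    · intro y hy hys
      by_cases hyx : y = x
      · rw [hyx]
        exact hcx
      · exact htG y hy (fun hy' => hy'.elim hyx hys)

/-- **Main recursion.** -/
theorem main_rec (h : Ctx κ) [WellFoundedLT ι] (tw : Tw T) {J : Type u} (hJ : #J < tNum κ)
    (Z : J → Set (KK κ)) (hZ : ∀ j i, #(↥(Z j ∩ T i)) = κ) :
    ∃ P, Qd T P ∧ ∀ j g, Bd (P \ DD (Z j) g) := by
  classical
  have hμ : #(J × KK κ) < tNum κ := by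
    rw [mk_prod, Cardinal.lift_id, Cardinal.lift_id, mkKK]
    exact Cardinal.mul_lt_of_lt (h.reg.aleph0_le.trans ((kp h).trans_le (ple h)).le) hJ
      ((kp h).trans_le (ple h))
  obtain ⟨q⟩ : Nonempty (KK (#(J × KK κ)) ≃ J × KK κ) := by
    rw [← Cardinal.eq, mkKK]
  obtain ⟨f, hf⟩ := exists_rec (W := KK (#(J × KK κ))) (β := Set (Nd κ))
    (fun α f b => Qd T b ∧ (∀ β, β < α → Bd (b \ f β)) ∧ b ⊆ DD (Z (q α).1) (q α).2)
    (fun α f g b hfg hb => ⟨hb.1, fun β hβ => by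
      rw [← hfg β hβ]
      exact hb.2.1 β hβ, hb.2.2⟩)
    (fun α f hf => by
      obtain ⟨P', hP', hP'f⟩ := lb h tw (J := {β // β < α})
        (lt_of_le_of_lt (Cardinal.mk_subtype_le _) (mkKK.trans_lt hμ))
        (fun β => f β.1) (fun a b hab => (hf b.1 b.2).2.1 a.1 hab) (fun a => (hf a.1 a.2).1)
      refine ⟨P' ∩ DD (Z (q α).1) (q α).2, qd_inter h hP' (hZ _) _, fun β hβ => ?_,
        Set.inter_subset_right⟩
      exact (hP'f ⟨β, hβ⟩).mono fun x hx => ⟨hx.1.1, hx.2⟩)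
  obtain ⟨P, hP, hPf⟩ := lb h tw (mkKK.trans_lt hμ) f (fun a b hab => (hf b).2.1 a hab)
    (fun a => (hf a).1)
  refine ⟨P, hP, fun j g => ?_⟩
  have h1 := hPf (q.symm (j, g))
  have h2 := (hf (q.symm (j, g))).2.2
  rw [Equiv.apply_symm_apply] at h2
  exact h1.mono fun x hx => ⟨hx.1, fun hxf => hx.2 (h2 hxf)⟩

/-- **The hitting theorem.** A long decreasing sequence of fewer than `p(κ)` sets has a
pseudointersection which meets fewer than `t(κ)` given sets, each meeting all members of the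
sequence, in sets of size `κ`. -/
theorem hit (h : Ctx κ) [WellFoundedLT ι] (tw : Tw T) {J : Type u} (hJ : #J < tNum κ)
    (Z : J → Set (KK κ)) (hZ : ∀ j i, #(↥(Z j ∩ T i)) = κ) :
    ∃ X : Set (KK κ), #(↥X) = κ ∧ (∀ i, Almost X (T i)) ∧ ∀ j, #(↥(X ∩ Z j)) = κ := by
  classical
  have hneK := neK h.reg
  obtain ⟨e⟩ := exists_code h
  obtain ⟨P, hP, hPZ⟩ := main_rec h tw hJ Z hZ
  choose A hA using fun s => sel_one h tw hP s
  choose Φ hΦ using fun (i : ι) (s : Nd κ) => (small_iff e h.reg).1 ((hA s).inR i)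
  obtain ⟨g, hg⟩ := exists_dom h.reg h.unc (tw.lt.trans_le (ple h)) (fun i x => Φ i (e.symm x))
  obtain ⟨i0, -⟩ := tw.long ∅ (by rw [mk_emptyCollection]; exact h.reg.pos)
  have hF : ∀ s : Nd κ, ∃ t, t ∈ A s ∧ t ∈ P ∧ t ∈ RR (T i0) s.1 ∧ g (e s) ≤ e t := by
    intro s
    have hE : #(↥((A s \ P) ∪ ((A s \ RR (T i0) s.1) ∪ {t : Nd κ | e t < g (e s)}))) < κ :=
      add_small h ((hA s).inP PUnit.unit) (add_small h ((hA s).inR i0)
        ((small_iff e h.reg).2 ⟨g (e s), fun t ht => ht⟩))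
    obtain ⟨t, htA, htE⟩ := exists_not_mem (hA s).card hE
    rw [Set.mem_union, Set.mem_union, not_or, not_or] at htE
    refine ⟨t, htA, ?_, ?_, not_lt.1 htE.2.2⟩
    · by_contra hcon
      exact htE.1 ⟨htA, hcon⟩
    · by_contra hcon
      exact htE.2.1 ⟨htA, hcon⟩
  choose F hFA hFP hFR hFg using hF
  have hs0 : ∃ s0 : Nd κ, s0.1 = ∅ := ⟨⟨∅, hneK.some, fun x hx => hx.elim⟩, rfl⟩
  obtain ⟨s0, hs0⟩ := hs0
  have : Nonempty (Nd κ) := ⟨s0⟩
  obtain ⟨v, hv⟩ := exists_rec (W := KK κ) (β := Nd κ)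
    (fun η f b => ∃ s : Nd κ, s.1 = un s0.1 (fun c => (f c).1) η ∧ b = F s)
    (fun η f g b hfg hb => by
      have : un s0.1 (fun c => (f c).1) η = un s0.1 (fun c => (g c).1) η :=
        un_congr fun j hj => by rw [hfg j hj]
      rw [← this]
      exact hb)
    (fun η f _ => by
      have hbd := un_bdd h s0 f η (Cardinal.mk_Iio_toType_ord_lt η)
      exact ⟨F ⟨_, hbd⟩, ⟨_, hbd⟩, rfl, rfl⟩)
  choose w hw hvw using hv
  have hvR : ∀ η, v η ∈ RR (T i0) (un s0.1 (fun c => (v c).1) η) := by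
    intro η
    have h1 := hFR (w η)
    rw [hw η, ← hvw η] at h1
    exact h1
  have hch := chain_le s0.1 (fun c => (v c).1) (fun c => (hvR c).1)
  choose y hy hyn using fun η => (hvR η).2.1
  have hyinj : Function.Injective y := by
    have key : ∀ η η', η < η' → y η ≠ y η' := fun η η' hlt heq =>
      hyn η' (heq ▸ subset_un (f := fun c => (v c).1) hlt (hy η))
    intro η η' heq
    rcases lt_trichotomy η η' with hlt | he | hlt
    · exact absurd heq (key _ _ hlt)
    · exact he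
    · exact absurd heq.symm (key _ _ hlt)
  have hwinj : Function.Injective w := by
    have key : ∀ η η', η < η' → w η ≠ w η' := fun η η' hlt heq => by
      have h1 := congrArg Subtype.val heq
      rw [hw η, hw η'] at h1
      exact hyn η (by rw [h1]; exact subset_un (f := fun c => (v c).1) hlt (hy η))
    intro η η' heq
    rcases lt_trichotomy η η' with hlt | he | hlt
    · exact absurd heq (key _ _ hlt)
    · exact he
    · exact absurd heq.symm (key _ _ hlt)
  let X : Set (KK κ) := ⋃ η, (v η).1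
  refine ⟨X, ?_, fun i => ?_, fun j => ?_⟩
  · refine le_antisymm ((mk_set_le X).trans mkKK.le) ?_
    conv_lhs => rw [← mkKK (κ := κ)]
    exact Cardinal.mk_le_of_injective
      (f := fun η => (⟨y η, Set.mem_iUnion.2 ⟨η, hy η⟩⟩ : X))
      (fun η η' heq => hyinj (congrArg Subtype.val heq))
  · obtain ⟨b, hb⟩ := Filter.eventually_atTop.1 (hg i)
    have hsm : #(↥{η | e (w η) < b}) < κ := by
      refine lt_of_le_of_lt (Cardinal.mk_le_of_injective
        (f := fun η : ↥{η | e (w η) < b} => (⟨e (w η.1), η.2⟩ : Set.Iio b)) ?_)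
        (Cardinal.mk_Iio_toType_ord_lt b)
      intro η η' heq
      exact Subtype.ext (hwinj (e.injective (congrArg Subtype.val heq)))
    obtain ⟨n0, hn0⟩ := bdd h.reg hsm
    obtain ⟨d, hd⟩ := bd_iUnion h (Cardinal.mk_Iio_toType_ord_lt n0)
      (fun η : Set.Iio n0 => (v η.1).1) (fun η => (v η.1).2)
    unfold Almost
    rw [mkKK]
    refine small_of_bdd (b := d) ?_
    rintro x ⟨hxX, hxT⟩
    have hxs : x ∉ s0.1 := by
      rw [hs0]
      exact fun hx => hx
    obtain ⟨η, hxη, hxu⟩ := exists_stage (f := fun c => (v c).1) hxX hxs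
    have hlt : e (w η) < b := by
      by_contra hcon
      have h1 := hb (e (w η)) (not_lt.1 hcon)
      rw [e.symm_apply_apply] at h1
      have h2 : F (w η) ∈ RR (T i) (w η).1 := by
        by_contra hR
        exact absurd ((hΦ i (w η) _ ⟨hFA (w η), hR⟩).trans h1) (not_lt.2 (hFg (w η)))
      rw [hw η, ← hvw η] at h2
      exact hxT (h2.2.2 x hxη hxu)
    exact hd x (Set.mem_iUnion.2 ⟨⟨η, hn0 η hlt⟩, hxη⟩)
  · apply card_of_freq h.reg
    rw [Filter.frequently_atTop]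
    intro b
    have hex : ∃ η, v η ∈ DD (Z j) b := by
      obtain ⟨d, hd⟩ := hPZ j b
      have hbig : ∃ η, d ≤ y η := by
        by_contra hcon
        push Not at hcon
        have h1 : κ ≤ #(↥(Set.Iio d)) := by
          conv_lhs => rw [← mkKK (κ := κ)]
          exact Cardinal.mk_le_of_injective
            (f := fun η => (⟨y η, hcon η⟩ : ↥(Set.Iio d)))
            (fun η η' heq => hyinj (congrArg Subtype.val heq))
        exact absurd (Cardinal.mk_Iio_toType_ord_lt d) (not_lt.2 h1)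
      obtain ⟨η, hη⟩ := hbig
      refine ⟨η, ?_⟩
      by_contra hcon
      have hPη : v η ∈ P := by
        rw [hvw η]
        exact hFP _
      exact absurd (hd (v η) ⟨hPη, hcon⟩ (y η) (hy η)) (not_lt.2 hη)
    obtain ⟨η, x, hx, hxZ, hbx⟩ := hex
    exact ⟨x, hbx.le, Set.mem_iUnion.2 ⟨η, hx⟩, hxZ⟩

end Pool.Agent.Lib.MP_eff308_lc.HT
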