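import Pool.Agent.Lib.MP_eff308_lc.HT.Rc

/-!
# Lower bounds of decreasing sequences of closed dense sets
-/

open Cardinal Set Filter

universe u

namespace Pool.Agent.Lib.MP_eff308_lc.HT

open Pool.Agent.Lib.MP_eff308_lc.T

variable {κ : Cardinal.{u}} {ι : Type u} [LinearOrder ι] {T : ι → Set (KK κ)}

theorem add_small (h : Ctx κ) {S : Type u} {A B : Set S} (hA : #(↥A) < κ) (hB : #(↥B) < κ) :
    #(↥(A ∪ B)) < κ :=
  lt_of_le_of_lt (mk_union_le _ _) (Cardinal.add_lt_of_lt h.reg.aleph0_le hA hB)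

theorem small_trans (h : Ctx κ) {S : Type u} {A B C : Set S} (hA : #(↥(A \ B)) < κ)
    (hB : #(↥(B \ C)) < κ) : #(↥(A \ C)) < κ := by
  refine lt_of_le_of_lt (mk_le_mk_of_subset ?_) (add_small h hA hB)
  rintro x ⟨hxA, hxC⟩
  by_cases hxB : x ∈ B
  · exact Or.inr ⟨hxB, hxC⟩
  · exact Or.inl ⟨hxA, hxB⟩

theorem exists_not_mem {S : Type u} {A E : Set S} (hA : #(↥A) = κ) (hE : #(↥E) < κ) :
    ∃ t ∈ A, t ∉ E := by
  by_contra hcon
  push Not at hcon
  have := mk_le_mk_of_subset (show A ⊆ E from fun t ht => hcon t ht)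
  rw [hA] at this
  exact absurd hE (not_lt.2 this)

/-- The case of a small cofinal set. -/
theorem lb_small (h : Ctx κ) {J : Type u} [LinearOrder J] [WellFoundedLT J]
    (P : J → Set (Nd κ)) (hd : ∀ a b, a < b → Bd (P b \ P a)) (hP : ∀ a, Qd T (P a))
    (C : Set J) (hC : #(↥C) < κ) (hne : C.Nonempty) (hcof : ∀ a, ∃ c ∈ C, a ≤ c) :
    ∃ P', Qd T P' ∧ ∀ a, Bd (P' \ P a) := by
  classical
  refine ⟨⋂ c : C, P c.1, ⟨clo_inter fun c => (hP c.1).clo, ?_⟩, ?_⟩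
  · intro s i g
    -- a bound for the exceptional nodes
    have hpair : ∀ q : C × C, ∃ b, q.1.1 < q.2.1 → ∀ t ∈ P q.2.1 \ P q.1.1, ∀ x ∈ t.1, x < b := by
      intro q
      by_cases hq : q.1.1 < q.2.1
      · obtain ⟨b, hb⟩ := hd _ _ hq
        exact ⟨b, fun _ => hb⟩
      · exact ⟨g, fun hq' => absurd hq' hq⟩
    choose b hb using hpair
    have hCC : #(C × C) < κ := by
      rw [mk_prod, Cardinal.lift_id]
      exact Cardinal.mul_lt_of_lt h.reg.aleph0_le hC hC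
    obtain ⟨d, hd'⟩ := bdd_range h.reg hCC b
    have hIio : ∀ c : C, #{c' // c' < c} < κ := fun c =>
      lt_of_le_of_lt (Cardinal.mk_subtype_le _) hC
    have : Nonempty (Nd κ) := ⟨s⟩
    obtain ⟨f, hf⟩ := exists_rec (W := C) (β := Nd κ)
      (fun c f b => b ∈ P c.1 ∧ b ∈ RR (T i) (un s.1 (fun c => (f c).1) c) ∧
        b ∈ GG (max g d) (un s.1 (fun c => (f c).1) c))
      (fun c f g b hfg hb => by
        have : un s.1 (fun c => (f c).1) c = un s.1 (fun c => (g c).1) c :=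
          un_congr fun j hj => by rw [hfg j hj]
        rw [← this]
        exact hb)
      (fun c f _ => by
        have hbd := un_bdd h s f c (hIio c)
        exact (hP c.1).dn ⟨_, hbd⟩ i (max g d))
    have hch := chain_le s.1 (fun c => (f c).1) (fun c => (hf c).2.1.1)
    let t : Nd κ := ⟨⋃ c, (f c).1, bd_iUnion h hC _ fun c => (f c).2⟩
    obtain ⟨c0, hc0⟩ := hne
    have hle := fun c => le_iUnion s.1 (fun c => (f c).1) hch c
    have hbig : ∀ c, ∃ x ∈ (f c).1, d ≤ x ∧ x ∉ un s.1 (fun c => (f c).1) c := by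
      intro c
      obtain ⟨x, hx, hxu⟩ := (hf c).2.1.2.1
      exact ⟨x, hx, (le_max_right _ _).trans ((hf c).2.2 x hx hxu), hxu⟩
    have hmem : ∀ c c' : C, c ≤ c' → f c' ∈ P c.1 := by
      intro c c' hcc
      rcases hcc.eq_or_lt with rfl | hlt
      · exact (hf c).1
      · by_contra hcon
        obtain ⟨x, hx, hdx, -⟩ := hbig c'
        have h1 := hb (c, c') hlt (f c') ⟨(hf c').1, hcon⟩ x hx
        exact absurd (h1.trans (hd' (c, c'))) (not_lt.2 hdx)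
    refine ⟨t, ?_, ⟨(hle ⟨c0, hc0⟩).2, ?_, ?_⟩, ?_⟩
    · rw [Set.mem_iInter]
      intro c
      refine (hP c.1).clo t ⟨f c, hmem c c le_rfl, (hle c).1⟩ fun x hx => ?_
      obtain ⟨c1, hc1⟩ := Set.mem_iUnion.1 hx
      rcases le_total c c1 with hcc | hcc
      · exact ⟨f c1, hmem c c1 hcc, (hle c1).1, hc1⟩
      · refine ⟨f c, hmem c c le_rfl, (hle c).1, ?_⟩
        rcases hcc.eq_or_lt with rfl | hlt
        · exact hc1
        · exact ((hch c).2 c1 hlt).1 hc1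
    · obtain ⟨x, hx, -, hxu⟩ := hbig ⟨c0, hc0⟩
      exact ⟨x, Set.mem_iUnion.2 ⟨_, hx⟩, fun hxs => hxu (Or.inl hxs)⟩
    · intro x hx hxs
      obtain ⟨c, hxc, hxu⟩ := exists_stage (f := fun c => (f c).1) hx hxs
      exact (hf c).2.1.2.2 x hxc hxu
    · intro x hx hxs
      obtain ⟨c, hxc, hxu⟩ := exists_stage (f := fun c => (f c).1) hx hxs
      exact (le_max_left _ _).trans ((hf c).2.2 x hxc hxu)
  · intro a
    obtain ⟨c, hc, hac⟩ := hcof a
    rcases hac.eq_or_lt with rfl | hlt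
    · have : (⋂ c : C, P c.1) \ P a = ∅ := by
        ext x
        simp only [Set.mem_sdiff, Set.mem_iInter, Set.mem_empty_iff_false, iff_false, not_and,
          not_not]
        exact fun hx => hx ⟨a, hc⟩
      rw [this]
      exact bd_of_small h (by rw [mk_emptyCollection]; exact h.reg.pos)
    · exact (hd a c hlt).mono fun x hx => ⟨Set.mem_iInter.1 hx.1 ⟨c, hc⟩, hx.2⟩

/-- Gluing the large sets. -/
theorem lb_sel (h : Ctx κ) {J : Type u} (hJ : #J < tNum κ) (P : J → Set (Nd κ))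
    (hP : ∀ a, Clo (P a)) (A : Nd κ → Set (Nd κ)) (hA : ∀ s, Sel T P s (A s)) :
    ∃ P', Qd T P' ∧ ∀ a, Bd (P' \ P a) := by
  classical
  have hneK := neK h.reg
  obtain ⟨e⟩ := exists_code h
  choose Φ hΦ using fun (a : J) (s : Nd κ) => (small_iff e h.reg).1 ((hA s).inP a)
  obtain ⟨g, hg⟩ := exists_dom h.reg h.unc hJ (fun a x => Φ a (e.symm x))
  let P0 : Set (Nd κ) := {t | ∃ s, t ∈ A s ∧ g (e s) ≤ e t}
  have hsm : ∀ a, #(↥(P0 \ P a)) < κ := by
    intro a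
    obtain ⟨b, hb⟩ := Filter.eventually_atTop.1 (hg a)
    have hsub : P0 \ P a ⊆ ⋃ x : Set.Iio b, (A (e.symm x.1) \ P a) := by
      rintro t ⟨⟨s, hts, hgt⟩, hta⟩
      have hlt : e s < b := by
        by_contra hcon
        have h1 := hb (e s) (not_lt.1 hcon)
        rw [e.symm_apply_apply] at h1
        exact absurd ((hΦ a s t ⟨hts, hta⟩).trans h1) (not_lt.2 hgt)
      refine Set.mem_iUnion.2 ⟨⟨e s, hlt⟩, ?_⟩
      rw [e.symm_apply_apply]
      exact ⟨hts, hta⟩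
    refine lt_of_le_of_lt (mk_le_mk_of_subset hsub) ?_
    refine (card_iUnion_lt_iff_forall_of_isRegular h.reg
      (Cardinal.mk_Iio_toType_ord_lt b)).2 fun x => ?_
    exact (hA _).inP a
  refine ⟨cl P0, ⟨clo_cl P0, ?_⟩, fun a => cl_bd (hP a) (bd_of_small h (hsm a))⟩
  intro s i c
  have hE : #(↥((A s \ RR (T i) s.1) ∪ ((A s \ GG c s.1) ∪ {t : Nd κ | e t < g (e s)}))) < κ :=
    add_small h ((hA s).inR i) (add_small h ((hA s).inG c)
      ((small_iff e h.reg).2 ⟨g (e s), fun t ht => ht⟩))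
  obtain ⟨t, htA, htE⟩ := exists_not_mem (hA s).card hE
  rw [Set.mem_union, Set.mem_union, not_or, not_or] at htE
  refine ⟨t, subset_cl P0 ⟨s, htA, not_lt.1 htE.2.2⟩, ?_, ?_⟩
  · by_contra hcon
    exact htE.1 ⟨htA, hcon⟩
  · by_contra hcon
    exact htE.2.1 ⟨htA, hcon⟩

theorem qd_univ (h : Ctx κ) (tw : Tw T) : Qd T (Set.univ : Set (Nd κ)) := by
  have hneK := neK h.reg
  refine ⟨fun _ _ _ => trivial, fun s i c => ?_⟩
  obtain ⟨b, hb⟩ := s.2
  obtain ⟨x, hx, hxT⟩ := (Filter.frequently_atTop.1 (freq_of_card h.reg (tw.card i))) (max b c)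
  obtain ⟨x', hx'⟩ := noMax h.reg x
  have hxs : x ∉ s.1 := fun hxs => absurd (hb x hxs) (not_lt.2 ((le_max_left _ _).trans hx))
  have hlt : ∀ y ∈ s.1, y < x := fun y hy => (hb y hy).trans_le ((le_max_left _ _).trans hx)
  have hnew : ∀ y ∈ insert x s.1, y ∉ s.1 → y = x := fun y hy hys => hy.resolve_right hys
  refine ⟨⟨insert x s.1, x', ?_⟩, trivial, ⟨⟨Set.subset_insert _ _, ?_⟩,
    ⟨x, Set.mem_insert _ _, hxs⟩, ?_⟩, ?_⟩
  · rintro y (rfl | hy)
    · exact hx'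
    · exact (hlt y hy).trans hx'
  · rintro y (rfl | hy) z hz hyz
    · exact absurd (hlt z hz) (not_lt.2 hyz)
    · exact hy
  · intro y hy hys
    rw [hnew y hy hys]
    exact hxT
  · intro y hy hys
    rw [hnew y hy hys]
    exact (le_max_right _ _).trans hx

/-- **Lower bounds.** -/
theorem lb (h : Ctx κ) [WellFoundedLT ι] (tw : Tw T) {J : Type u} [LinearOrder J]
    [WellFoundedLT J] (hJ : #J < tNum κ) (P : J → Set (Nd κ))
    (hd : ∀ a b, a < b → Bd (P b \ P a)) (hP : ∀ a, Qd T (P a)) :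
    ∃ P', Qd T P' ∧ ∀ a, Bd (P' \ P a) := by
  classical
  rcases isEmpty_or_nonempty J with hJe | ⟨⟨j0⟩⟩
  · exact ⟨Set.univ, qd_univ h tw, fun a => (hJe.false a).elim⟩
  by_cases hc : ∃ C : Set J, #(↥C) < κ ∧ ∀ a, ∃ c ∈ C, a ≤ c
  · obtain ⟨C, hC, hcof⟩ := hc
    obtain ⟨c0, hc0, -⟩ := hcof j0
    exact lb_small h P hd hP C hC ⟨c0, hc0⟩ hcof
  push Not at hc
  obtain ⟨C, hCcof, hCc⟩ := Order.exists_cof_eq J
  have hCb : ∀ Γ : Set C, #(↥Γ) < #(↥C) → ∃ a, ∀ b ∈ Γ, b ≤ a := by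
    intro Γ hΓ
    by_contra hcon
    push Not at hcon
    have h1 : IsCofinal (Subtype.val '' Γ) := by
      intro a
      obtain ⟨c, hcC, hac⟩ := hCcof a
      obtain ⟨g, hg, hlt⟩ := hcon ⟨c, hcC⟩
      exact ⟨g.1, ⟨g, hg, rfl⟩, hac.trans hlt.le⟩
    have h2 := (Order.cof_le h1).trans mk_image_le
    rw [← hCc] at h2
    exact absurd hΓ (not_lt.2 h2)
  have hCκ : κ ≤ #(↥C) := by
    by_contra hcon
    obtain ⟨a, ha⟩ := hc C (not_le.1 hcon)
    obtain ⟨c, hcC, hac⟩ := hCcof a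
    exact absurd hac (not_le.2 (ha c hcC))
  have hCt : #(↥C) < tNum κ := lt_of_le_of_lt (Cardinal.mk_set_le C) hJ
  have hsel : ∀ s, ∃ A, Sel T (fun c : C => P c.1) s A := by
    intro s
    rcases lt_or_ge (#(↥C)) (pNum κ) with hlt | hge
    · exact sel_p h tw hlt (fun Γ hΓ => hCb Γ (hΓ.trans_le hCκ)) _
        (fun a b hab => hd a.1 b.1 hab) (fun a => hP a.1) s
    · exact sel_t h tw hCt (fun Γ hΓ => hCb Γ (lt_of_le_of_lt hΓ ((kp h).trans_le hge))) _
        (fun a b hab => hd a.1 b.1 hab) (fun a => hP a.1) s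
  choose A hA using hsel
  obtain ⟨P', hP', hP'c⟩ := lb_sel h hCt (fun c : C => P c.1) (fun c => (hP c.1).clo) A hA
  refine ⟨P', hP', fun a => ?_⟩
  obtain ⟨c, hcC, hac⟩ := hCcof a
  rcases hac.eq_or_lt with rfl | hlt
  · exact hP'c ⟨a, hcC⟩
  · exact (hP'c ⟨c, hcC⟩).trans' (hd a c hlt)

end Pool.Agent.Lib.MP_eff308_lc.HT
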