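import Pool.Agent.Lib.MP_eff308_lc.HT.Base

/-!
# Nodes: bounded subsets of `κ`, end extension, closed sets of nodes
-/

open Cardinal Set Filter

universe u

namespace Pool.Agent.Lib.MP_eff308_lc.HT

open Pool.Agent.Lib.MP_eff308_lc.T

variable {κ : Cardinal.{u}}

/-- The standing hypothesis: `κ` is regular, uncountable, `κ^{<κ} = κ`. -/
structure Ctx (κ : Cardinal.{u}) : Prop where
  reg : κ.IsRegular
  unc : ℵ₀ < κ
  pow : κ ^< κ = κ

/-- Nodes: the bounded subsets of `κ`. -/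
abbrev Nd (κ : Cardinal.{u}) : Type u := {s : Set (KK κ) // ∃ b, ∀ x ∈ s, x < b}

/-- `t` is an end extension of `s`. -/
def Le (s t : Set (KK κ)) : Prop := s ⊆ t ∧ ∀ x ∈ t, ∀ y ∈ s, x ≤ y → x ∈ s

theorem Le.refl (s : Set (KK κ)) : Le s s := ⟨subset_rfl, fun _ hx _ _ _ => hx⟩

theorem Le.trans {a b c : Set (KK κ)} (h1 : Le a b) (h2 : Le b c) : Le a c :=
  ⟨h1.1.trans h2.1, fun x hx y hy hxy => h1.2 x (h2.2 x hx y (h1.1 hy) hxy) y hy hxy⟩

theorem Le.mid {c c' t : Set (KK κ)} (h : Le c t) (h1 : c ⊆ c') (h2 : c' ⊆ t) : Le c c' :=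
  ⟨h1, fun x hx y hy hxy => h.2 x (h2 hx) y hy hxy⟩

theorem Le.comp {c c' t : Set (KK κ)} (h : Le c t) (h' : Le c' t) : Le c c' ∨ Le c' c := by
  by_cases hs : c ⊆ c'
  · exact Or.inl (h.mid hs h'.1)
  · right
    obtain ⟨y, hy, hy'⟩ := Set.not_subset.1 hs
    refine h'.mid (fun x hx => ?_) h.1
    rcases le_total x y with hxy | hxy
    · exact h.2 x (h'.1 hx) y hy hxy
    · exact absurd (h'.2 y (h.1 hy) x hx hxy) hy'

/-- The union of a chain is an end extension of its members. -/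
theorem le_sUnion {C : Set (Set (KK κ))} (hC : ∀ a ∈ C, ∀ b ∈ C, Le a b ∨ Le b a)
    {a : Set (KK κ)} (ha : a ∈ C) : Le a (⋃₀ C) := by
  refine ⟨Set.subset_sUnion_of_mem ha, ?_⟩
  rintro x ⟨b, hb, hxb⟩ y hy hxy
  rcases hC a ha b hb with h | h
  · exact h.2 x hxb y hy hxy
  · exact h.1 hxb

theorem kp (h : Ctx κ) : κ < pNum κ := kappa_lt h.reg h.unc

theorem ple (h : Ctx κ) : pNum κ ≤ tNum κ := p_le_t h.reg h.unc

theorem mkNd (h : Ctx κ) : #(Nd κ) = κ := by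
  have hne := neK h.reg
  apply le_antisymm
  · have h1 : #(Nd κ) ≤ #(Σ b : KK κ, Set (Set.Iio b)) := by
      choose b hb using fun s : Nd κ => s.2
      refine Cardinal.mk_le_of_injective
        (f := fun s => (⟨b s, {x | x.1 ∈ s.1}⟩ : Σ b : KK κ, Set (Set.Iio b))) ?_
      intro s t hst
      have hb1 : b s = b t := congrArg Sigma.fst hst
      have key : ∀ (c d : KK κ) (A B : Set (KK κ)), (∀ x ∈ A, x < c) → (∀ x ∈ B, x < d) →
          (⟨c, {x | x.1 ∈ A}⟩ : Σ b : KK κ, Set (Set.Iio b)) = ⟨d, {x | x.1 ∈ B}⟩ → A = B := by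
        intro c d A B hA hB hAB
        obtain rfl : c = d := congrArg Sigma.fst hAB
        have h2 := eq_of_heq (Sigma.mk.inj hAB).2
        ext x
        constructor
        · intro hx
          have : (⟨x, hA x hx⟩ : Set.Iio c) ∈ {x : Set.Iio c | x.1 ∈ A} := hx
          rw [h2] at this
          exact this
        · intro hx
          have : (⟨x, hB x hx⟩ : Set.Iio c) ∈ {x : Set.Iio c | x.1 ∈ B} := hx
          rw [← h2] at this
          exact this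
      exact Subtype.ext (key (b s) (b t) s.1 t.1 (hb s) (hb t) hst)
    refine h1.trans ?_
    rw [mk_sigma]
    refine (Cardinal.sum_le_sum _ (fun _ : KK κ => κ) fun b => ?_).trans ?_
    · rw [Cardinal.mk_set]
      have h2 : (2 : Cardinal.{u}) ^ #(↥(Set.Iio b)) ≤ κ ^ #(↥(Set.Iio b)) :=
        Cardinal.power_le_power_right ((Cardinal.nat_lt_aleph0 2).le.trans h.reg.aleph0_le)
      exact (h2.trans (Cardinal.le_powerlt κ (Cardinal.mk_Iio_toType_ord_lt b))).trans h.pow.le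
    · rw [Cardinal.sum_const, Cardinal.lift_id, Cardinal.lift_id, mkKK]
      exact (Cardinal.mul_eq_self h.reg.aleph0_le).le
  · rw [← mkKK (κ := κ)]
    conv_rhs => rw [mkKK (κ := κ)]
    refine Cardinal.mk_le_of_injective (f := fun x : KK κ => (⟨Set.Iio x, x, fun y hy => hy⟩ : Nd κ)) ?_
    intro x y hxy
    exact Set.Iio_injective (congrArg Subtype.val hxy)

theorem exists_code (h : Ctx κ) : Nonempty (Nd κ ≃ KK κ) := by
  rw [← Cardinal.eq, mkNd h, mkKK]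

section

variable (e : Nd κ ≃ KK κ)

theorem small_iff (hreg : κ.IsRegular) {P : Set (Nd κ)} :
    #(↥P) < κ ↔ ∃ b, ∀ t ∈ P, e t < b := by
  rw [← Cardinal.mk_image_eq (s := P) e.injective]
  constructor
  · intro h
    obtain ⟨b, hb⟩ := bdd hreg h
    exact ⟨b, fun t ht => hb _ ⟨t, ht, rfl⟩⟩
  · rintro ⟨b, hb⟩
    exact small_of_bdd (b := b) (by rintro _ ⟨t, ht, rfl⟩; exact hb t ht)

end

/-- The elements of fewer than `κ` nodes are bounded. -/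
theorem nodes_bdd (h : Ctx κ) {P : Set (Nd κ)} (hP : #(↥P) < κ) :
    ∃ d : KK κ, ∀ t ∈ P, ∀ x ∈ t.1, x < d := by
  choose b hb using fun t : P => t.1.2
  obtain ⟨d, hd⟩ := bdd_range h.reg hP b
  exact ⟨d, fun t ht x hx => (hb ⟨t, ht⟩ x hx).trans (hd ⟨t, ht⟩)⟩

/-- A set of nodes is bounded when all its nodes are below one point. -/
def Bd (P : Set (Nd κ)) : Prop := ∃ d : KK κ, ∀ t ∈ P, ∀ x ∈ t.1, x < d

theorem bd_of_small (h : Ctx κ) {P : Set (Nd κ)} (hP : #(↥P) < κ) : Bd P := nodes_bdd h hP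

theorem Bd.mono {P Q : Set (Nd κ)} (hQ : Bd Q) (hPQ : P ⊆ Q) : Bd P := by
  obtain ⟨d, hd⟩ := hQ
  exact ⟨d, fun t ht => hd t (hPQ ht)⟩

theorem Bd.trans' {A B C : Set (Nd κ)} (h1 : Bd (A \ B)) (h2 : Bd (B \ C)) : Bd (A \ C) := by
  obtain ⟨d1, hd1⟩ := h1
  obtain ⟨d2, hd2⟩ := h2
  refine ⟨max d1 d2, fun t ht x hx => ?_⟩
  by_cases hB : t ∈ B
  · exact (hd2 t ⟨hB, ht.2⟩ x hx).trans_le (le_max_right _ _)
  · exact (hd1 t ⟨ht.1, hB⟩ x hx).trans_le (le_max_left _ _)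

/-- A set of nodes with arbitrarily large elements is large. -/
theorem card_of_unbdd (h : Ctx κ) {P : Set (Nd κ)} (hP : ∀ c : KK κ, ∃ t ∈ P, ∃ x ∈ t.1, c < x) :
    #(↥P) = κ := by
  refine le_antisymm ((mk_set_le P).trans (mkNd h).le) (not_lt.1 fun hlt => ?_)
  obtain ⟨d, hd⟩ := nodes_bdd h hlt
  obtain ⟨t, ht, x, hx, hdx⟩ := hP d
  exact absurd (hd t ht x hx) (not_lt.2 hdx.le)

/-- The union of fewer than `κ` bounded sets is bounded. -/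
theorem bd_iUnion (h : Ctx κ) {I : Type u} (hI : #I < κ) (c : I → Set (KK κ))
    (hc : ∀ i, ∃ b, ∀ x ∈ c i, x < b) : ∃ b, ∀ x ∈ ⋃ i, c i, x < b := by
  choose b hb using hc
  obtain ⟨d, hd⟩ := bdd_range h.reg hI b
  refine ⟨d, fun x hx => ?_⟩
  obtain ⟨i, hi⟩ := Set.mem_iUnion.1 hx
  exact (hb i x hi).trans (hd i)

/-! ## Closed sets of nodes -/

/-- `P` is closed under unions of chains. -/
def Clo (P : Set (Nd κ)) : Prop :=
  ∀ t : Nd κ, (∃ c ∈ P, Le c.1 t.1) → (∀ x ∈ t.1, ∃ c ∈ P, Le c.1 t.1 ∧ x ∈ c.1) → t ∈ P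

/-- The closure. -/
def cl (P : Set (Nd κ)) : Set (Nd κ) :=
  {t | (∃ c ∈ P, Le c.1 t.1) ∧ ∀ x ∈ t.1, ∃ c ∈ P, Le c.1 t.1 ∧ x ∈ c.1}

theorem subset_cl (P : Set (Nd κ)) : P ⊆ cl P :=
  fun t ht => ⟨⟨t, ht, Le.refl _⟩, fun _ hx => ⟨t, ht, Le.refl _, hx⟩⟩

theorem clo_cl (P : Set (Nd κ)) : Clo (cl P) := by
  intro t h1 h2
  constructor
  · obtain ⟨c, hc, hct⟩ := h1
    obtain ⟨d, hd, hdc⟩ := hc.1
    exact ⟨d, hd, hdc.trans hct⟩
  · intro x hx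
    obtain ⟨c, hc, hct, hxc⟩ := h2 x hx
    obtain ⟨d, hd, hdc, hxd⟩ := hc.2 x hxc
    exact ⟨d, hd, hdc.trans hct, hxd⟩

theorem clo_inter {I : Type u} {P : I → Set (Nd κ)} (hP : ∀ i, Clo (P i)) : Clo (⋂ i, P i) := by
  intro t h1 h2
  rw [Set.mem_iInter]
  intro i
  refine hP i t ?_ fun x hx => ?_
  · obtain ⟨c, hc, hct⟩ := h1
    exact ⟨c, Set.mem_iInter.1 hc i, hct⟩
  · obtain ⟨c, hc, hct, hxc⟩ := h2 x hx
    exact ⟨c, Set.mem_iInter.1 hc i, hct, hxc⟩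

/-- The closure of a set almost inside a closed set is almost inside it. -/
theorem cl_bd {P Q : Set (Nd κ)} (hQ : Clo Q) (hPQ : Bd (P \ Q)) : Bd (cl P \ Q) := by
  obtain ⟨d, hd⟩ := hPQ
  refine ⟨d, ?_⟩
  rintro t ⟨ht, htQ⟩ x0 hx0
  by_contra hcon0
  have hcon : ∀ c ∈ P \ Q, Le c.1 t.1 → x0 ∉ c.1 := fun c hc _ hxc => hcon0 (hd c hc x0 hxc)
  have hin : ∀ c ∈ P, Le c.1 t.1 → x0 ∈ c.1 → c ∈ Q := by
    intro c hc hct hxc
    by_contra hcQ
    exact hcon c ⟨hc, hcQ⟩ hct hxc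
  obtain ⟨c0, hc0, hc0t, hx0c⟩ := ht.2 x0 hx0
  apply htQ
  refine hQ t ⟨c0, hin c0 hc0 hc0t hx0c, hc0t⟩ fun x hx => ?_
  obtain ⟨c, hc, hct, hxc⟩ := ht.2 x hx
  rcases hct.comp hc0t with hle | hle
  · exact ⟨c0, hin c0 hc0 hc0t hx0c, hc0t, hle.1 hxc⟩
  · exact ⟨c, hin c hc hct (hle.1 hx0c), hct, hxc⟩

end Pool.Agent.Lib.MP_eff308_lc.HT
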