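import Pool.Agent.Lib.MP_eff308_lc.HT.Hit

/-!
# Positive sets
-/

open Cardinal Set Filter

universe u

namespace Pool.Agent.Lib.MP_eff308_lc.HT

open Pool.Agent.Lib.MP_eff308_lc.T

variable {κ : Cardinal.{u}}

/-- `A` is positive for the collection `H` of families: it meets the intersection of fewer than
`κ` members of one family of `H` in a set of size `κ`. -/
def Positive (H : Set (Set (Set (KK κ)))) (A : Set (KK κ)) : Prop :=
  ∀ F ∈ H, ∀ G : Set (Set (KK κ)), G ⊆ F → #(↥G) < κ → #(↥(A ∩ ⋂₀ G)) = κ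

theorem ev_of_almost (h : Ctx κ) {A B : Set (KK κ)} (hAB : Almost A B) :
    ∀ᶠ x in (atTop : Filter (KK κ)), x ∈ A → x ∈ B := by
  obtain ⟨b, hb⟩ := almost_bdd h.reg hAB
  filter_upwards [eventually_ge_atTop b] with x hx hxA
  exact hb x hxA hx

/-- **Long decreasing sequences of positive sets have positive lower bounds.** -/
theorem pos_lb (h : Ctx κ) (H : Set (Set (Set (KK κ)))) (hH : #(↥H) < tNum κ)
    (hHF : ∀ F ∈ H, #(↥F) < pNum κ) {ι : Type u} [LinearOrder ι]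
    [WellFoundedLT ι] (hι : #ι < pNum κ)
    (hlong : ∀ Γ : Set ι, #(↥Γ) < κ → ∃ a, ∀ b ∈ Γ, b ≤ a) (T : ι → Set (KK κ))
    (hT : ∀ i, #(↥(T i)) = κ ∧ Positive H (T i))
    (hdec : ∀ i j, i < j → Almost (T j) (T i)) :
    ∃ X : Set (KK κ), #(↥X) = κ ∧ Positive H X ∧ ∀ i, Almost X (T i) := by
  classical
  have hneK := neK h.reg
  have hpinf : ℵ₀ ≤ pNum κ := h.reg.aleph0_le.trans (kp h).le
  have tw : Tw T := ⟨fun i => (hT i).1, hdec, hι, hlong⟩
  have hZ : ∀ F : H, ∃ Z : Set (KK κ), #(↥Z) = κ ∧ (∀ B ∈ F.1, Almost Z B) ∧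
      ∀ i, Almost Z (T i) := by
    intro F
    let f : F.1 ⊕ ι → Set (KK κ) := fun n => match n with
      | Sum.inl B => B.1
      | Sum.inr i => T i
    have hI : #(F.1 ⊕ ι) < pNum κ := by
      rw [← Cardinal.add_def]
      exact Cardinal.add_lt_of_lt hpinf (hHF F.1 F.2) hι
    obtain ⟨Z, hZ, hZf⟩ := pi_index h (Equiv.refl (KK κ)) hI f (by
      intro Γ hΓ
      have hΓ2 := small_preimage hΓ (Sum.inr : ι → F.1 ⊕ ι) Sum.inr_injective
      have hΓ1 := small_preimage hΓ (Sum.inl : F.1 → F.1 ⊕ ι) Sum.inl_injective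
      obtain ⟨i0, hi0⟩ := hlong _ hΓ2
      have h1 := (hT i0).2 F.1 F.2 ((Subtype.val : F.1 → Set (KK κ)) ''
          ((Sum.inl : F.1 → F.1 ⊕ ι) ⁻¹' Γ)) (by rintro _ ⟨b, -, rfl⟩; exact b.2)
          (lt_of_le_of_lt mk_image_le hΓ1)
      have h2 : ∀ᶠ x in (atTop : Filter (KK κ)), ∀ i ∈ (Sum.inr : ι → F.1 ⊕ ι) ⁻¹' Γ,
          x ∈ T i0 → x ∈ T i := by
        refine ev_all_mem h.reg hΓ2 fun i hi => ?_
        rcases (hi0 i hi).eq_or_lt with rfl | hlt
        · exact Filter.Eventually.of_forall fun x hx => hx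
        · exact ev_of_almost h (hdec i i0 hlt)
      apply card_of_freq h.reg
      refine ((freq_of_card h.reg h1).and_eventually h2).mono ?_
      rintro x ⟨⟨hx1, hx2⟩, hx3⟩
      rw [Set.mem_iInter₂]
      intro n hn
      match n, hn with
      | Sum.inl B, hn =>
        show x ∈ B.1
        exact hx2 B.1 ⟨B, hn, rfl⟩
      | Sum.inr i, hn =>
        show x ∈ T i
        exact hx3 i hn hx1)
    exact ⟨Z, hZ, fun B hB => almost_of_small (hZf (Sum.inl ⟨B, hB⟩)),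
      fun i => almost_of_small (hZf (Sum.inr i))⟩
  choose Z hZc hZF hZT using hZ
  obtain ⟨X, hX, hXT, hXZ⟩ := hit h tw (J := H) hH Z (by
    intro F i
    apply card_of_freq h.reg
    exact ((freq_of_card h.reg (hZc F)).and_eventually (ev_of_almost h (hZT F i))).mono
      fun x hx => ⟨hx.1, hx.2 hx.1⟩)
  refine ⟨X, hX, fun F hF G hG hGc => ?_, hXT⟩
  apply card_of_freq h.reg
  have h2 : ∀ᶠ x in (atTop : Filter (KK κ)), ∀ B ∈ G, x ∈ Z ⟨F, hF⟩ → x ∈ B :=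
    ev_all_mem h.reg hGc fun B hB => ev_of_almost h (hZF ⟨F, hF⟩ B (hG hB))
  refine ((freq_of_card h.reg (hXZ ⟨F, hF⟩)).and_eventually h2).mono ?_
  rintro x ⟨⟨hx1, hx2⟩, hx3⟩
  exact ⟨hx1, fun B hB => hx3 B hB hx2⟩

end Pool.Agent.Lib.MP_eff308_lc.HT
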