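import Pool.Agent.Lib.MP_eff308_lc.HT.Nd

/-!
# Large sets of nodes almost inside everything
-/

open Cardinal Set Filter

universe u

namespace Pool.Agent.Lib.MP_eff308_lc.HT

open Pool.Agent.Lib.MP_eff308_lc.T

variable {κ : Cardinal.{u}}

/-- Nonempty end extensions of `s` by elements of `A`. -/
def RR (A s : Set (KK κ)) : Set (Nd κ) :=
  {t | Le s t.1 ∧ (∃ x ∈ t.1, x ∉ s) ∧ ∀ x ∈ t.1, x ∉ s → x ∈ A}

/-- Nodes whose new elements are at least `c`. -/
def GG (c : KK κ) (s : Set (KK κ)) : Set (Nd κ) := {t | ∀ x ∈ t.1, x ∉ s → c ≤ x}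

/-- The data of a long tower of length `< p(κ)`. -/
structure Tw {ι : Type u} [LinearOrder ι] (T : ι → Set (KK κ)) : Prop where
  card : ∀ i, #(↥(T i)) = κ
  dec : ∀ i j, i < j → Almost (T j) (T i)
  lt : #ι < pNum κ
  long : ∀ Γ : Set ι, #(↥Γ) < κ → ∃ a, ∀ b ∈ Γ, b ≤ a

/-- Closed dense sets of nodes. -/
structure Qd {ι : Type u} (T : ι → Set (KK κ)) (P : Set (Nd κ)) : Prop where
  clo : Clo P
  dn : ∀ (s : Nd κ) (i : ι) (c : KK κ), ∃ t ∈ P, t ∈ RR (T i) s.1 ∧ t ∈ GG c s.1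

/-- `A` is a large set of nodes almost inside all `P a`, `RR (T i) s`, `GG c s`. -/
structure Sel {ι J : Type u} (T : ι → Set (KK κ)) (P : J → Set (Nd κ)) (s : Nd κ)
    (A : Set (Nd κ)) : Prop where
  card : #(↥A) = κ
  inP : ∀ a, #(↥(A \ P a)) < κ
  inR : ∀ i, #(↥(A \ RR (T i) s.1)) < κ
  inG : ∀ c, #(↥(A \ GG c s.1)) < κ

/-- The pseudointersection number, for indexed families. -/
theorem pi_index (h : Ctx κ) {S : Type u} (e : S ≃ KK κ) {I : Type u} (hI : #I < pNum κ)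
    (f : I → Set S) (hf : ∀ Γ : Set I, #(↥Γ) < κ → #(↥(⋂ i ∈ Γ, f i)) = κ) :
    ∃ A : Set S, #(↥A) = κ ∧ ∀ i, #(↥(A \ f i)) < κ := by
  have hS : #S = κ := (Cardinal.mk_congr e).trans mkKK
  have h1κ : 1 < κ := Cardinal.one_lt_aleph0.trans h.unc
  have hF : SIP (Set.range f) := by
    intro G hG hlt
    rw [hS] at hlt ⊢
    choose g hg using fun B : ↥G => hG B.2
    have h1 := hf (Set.range g) (lt_of_le_of_lt mk_range_le hlt)
    have h2 : ⋂₀ G = ⋂ i ∈ Set.range g, f i := by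
      ext x
      simp only [Set.mem_sInter, Set.mem_iInter]
      constructor
      · rintro hx _ ⟨B, rfl⟩
        rw [hg B]
        exact hx _ B.2
      · intro hx B hB
        have := hx _ ⟨⟨B, hB⟩, rfl⟩
        rwa [hg ⟨B, hB⟩] at this
    rw [h2, h1]
  obtain ⟨A, hA, hAF⟩ := hasPI_of_lt_p h1κ e hF (lt_of_le_of_lt mk_range_le hI)
  refine ⟨A, hA.trans hS, fun i => ?_⟩
  have := hAF (f i) ⟨i, rfl⟩
  unfold Almost at this
  rwa [hS] at this

theorem bound_of_small (h : Ctx κ) {I : Type u} {Γ : Set I} (hΓ : #(↥Γ) < κ)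
    {p : I → KK κ → Prop} (hp : ∀ i ∈ Γ, ∃ b, p i b)
    (hmono : ∀ i b c, b ≤ c → p i b → p i c) : ∃ b, ∀ i ∈ Γ, p i b := by
  choose b hb using fun i : Γ => hp i.1 i.2
  obtain ⟨d, hd⟩ := bdd_range h.reg hΓ b
  exact ⟨d, fun i hi => hmono i _ _ (hd ⟨i, hi⟩).le (hb ⟨i, hi⟩)⟩

theorem small_preimage {I K : Type u} {Γ : Set K} (hΓ : #(↥Γ) < κ) (g : I → K)
    (hg : Function.Injective g) : #(↥(g ⁻¹' Γ)) < κ := by
  refine lt_of_le_of_lt (Cardinal.mk_le_of_injective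
    (f := fun q : ↥(g ⁻¹' Γ) => (⟨g q.1, q.2⟩ : Γ)) ?_) hΓ
  intro q q' hq
  exact Subtype.ext (hg (congrArg Subtype.val hq))

section

variable {ι : Type u} [LinearOrder ι] {T : ι → Set (KK κ)}

/-- The case of fewer than `p(κ)` sets. -/
theorem sel_p (h : Ctx κ) (tw : Tw T) {J : Type u} [LinearOrder J] (hJ : #J < pNum κ)
    (hJb : ∀ Γ : Set J, #(↥Γ) < κ → ∃ a, ∀ b ∈ Γ, b ≤ a) (P : J → Set (Nd κ))
    (hd : ∀ a b, a < b → Bd (P b \ P a)) (hP : ∀ a, Qd T (P a)) (s : Nd κ) :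
    ∃ A, Sel T P s A := by
  obtain ⟨e⟩ := exists_code h
  have hpinf : ℵ₀ ≤ pNum κ := h.reg.aleph0_le.trans (kp h).le
  let f : J ⊕ (ι ⊕ KK κ) → Set (Nd κ) := fun n => match n with
    | Sum.inl a => P a
    | Sum.inr (Sum.inl i) => RR (T i) s.1
    | Sum.inr (Sum.inr c) => GG c s.1
  have hI : #(J ⊕ (ι ⊕ KK κ)) < pNum κ := by
    rw [← Cardinal.add_def, ← Cardinal.add_def]
    exact Cardinal.add_lt_of_lt hpinf hJ (Cardinal.add_lt_of_lt hpinf tw.lt
      (mkKK.trans_lt (kp h)))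
  obtain ⟨A, hA, hAf⟩ := pi_index h e hI f (by
    intro Γ hΓ
    have hΓ1 := small_preimage hΓ Sum.inl Sum.inl_injective
    have hΓ2 := small_preimage hΓ (fun i : ι => (Sum.inr (Sum.inl i) : J ⊕ (ι ⊕ KK κ)))
      (fun i j hij => Sum.inl_injective (Sum.inr_injective hij))
    have hΓ3 := small_preimage hΓ (fun i : KK κ => (Sum.inr (Sum.inr i) : J ⊕ (ι ⊕ KK κ)))
      (fun i j hij => Sum.inr_injective (Sum.inr_injective hij))
    obtain ⟨a0, ha0⟩ := hJb _ hΓ1
    obtain ⟨i0, hi0⟩ := tw.long _ hΓ2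
    obtain ⟨c0, hc0⟩ := bdd h.reg hΓ3
    obtain ⟨d1, hd1⟩ := bound_of_small h hΓ1
      (p := fun a b => ∀ t ∈ P a0 \ P a, ∀ x ∈ t.1, x < b) (by
        intro a ha
        rcases (ha0 a ha).eq_or_lt with rfl | hlt
        · exact ⟨c0, fun t ht => absurd ht.1 ht.2⟩
        · exact hd a a0 hlt)
      (fun a b c hbc hp t ht x hx => (hp t ht x hx).trans_le hbc)
    obtain ⟨d2, hd2⟩ := bound_of_small h hΓ2
      (p := fun i b => ∀ y, y ∈ T i0 → b ≤ y → y ∈ T i) (by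
        intro i hi
        rcases (hi0 i hi).eq_or_lt with rfl | hlt
        · exact ⟨c0, fun y hy _ => hy⟩
        · exact almost_bdd h.reg (tw.dec i i0 hlt))
      (fun a b c hbc hp y hy hcy => hp y hy (hbc.trans hcy))
    apply card_of_unbdd h
    intro c
    obtain ⟨c', hc'⟩ := noMax h.reg (max (max c c0) (max d1 d2))
    obtain ⟨t, htP, htR, htG⟩ := (hP a0).dn s i0 c'
    obtain ⟨x, hxt, hxs⟩ := htR.2.1
    have hcx := htG x hxt hxs
    have hcc : c < c' := lt_of_le_of_lt ((le_max_left _ _).trans (le_max_left _ _)) hc'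
    have hc0c : c0 < c' := lt_of_le_of_lt ((le_max_right _ _).trans (le_max_left _ _)) hc'
    have hd1c : d1 < c' := lt_of_le_of_lt ((le_max_left _ _).trans (le_max_right _ _)) hc'
    have hd2c : d2 < c' := lt_of_le_of_lt ((le_max_right _ _).trans (le_max_right _ _)) hc'
    refine ⟨t, ?_, x, hxt, lt_of_lt_of_le hcc hcx⟩
    rw [Set.mem_iInter₂]
    intro n hn
    match n, hn with
    | Sum.inl a, hn =>
      show t ∈ P a
      by_contra hta
      exact absurd (hd1 a hn t ⟨htP, hta⟩ x hxt) (not_lt.2 (hd1c.le.trans hcx))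
    | Sum.inr (Sum.inl i), hn =>
      show t ∈ RR (T i) s.1
      exact ⟨htR.1, htR.2.1, fun y hy hys =>
        hd2 i hn y (htR.2.2 y hy hys) (hd2c.le.trans (htG y hy hys))⟩
    | Sum.inr (Sum.inr c1), hn =>
      show t ∈ GG c1 s.1
      exact fun y hy hys => ((hc0 c1 hn).le.trans hc0c.le).trans (htG y hy hys))
  exact ⟨A, hA, fun a => hAf (Sum.inl a), fun i => hAf (Sum.inr (Sum.inl i)),
    fun c => hAf (Sum.inr (Sum.inr c))⟩

theorem sel_one (h : Ctx κ) (tw : Tw T) {P : Set (Nd κ)} (hP : Qd T P) (s : Nd κ) :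
    ∃ A, Sel T (fun _ : PUnit.{u+1} => P) s A :=
  sel_p h tw (by
    rw [Cardinal.mk_punit]
    exact (Cardinal.one_lt_aleph0.trans h.unc).trans (kp h)) (fun _ _ => ⟨PUnit.unit, fun _ _ => le_rfl⟩)
    _ (fun _ _ hab => absurd hab (lt_irrefl _)) (fun _ => hP) s

/-- The case of fewer than `t(κ)` sets with a long index. -/
theorem sel_t (h : Ctx κ) [WellFoundedLT ι] (tw : Tw T) {J : Type u} [LinearOrder J]
    [WellFoundedLT J] (hJ : #J < tNum κ)
    (hJb : ∀ Γ : Set J, #(↥Γ) ≤ κ → ∃ a, ∀ b ∈ Γ, b ≤ a) (P : J → Set (Nd κ))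
    (hd : ∀ a b, a < b → Bd (P b \ P a)) (hP : ∀ a, Qd T (P a)) (s : Nd κ) :
    ∃ A, Sel T P s A := by
  classical
  have hneK := neK h.reg
  obtain ⟨e⟩ := exists_code h
  obtain ⟨i0, -⟩ := tw.long ∅ (by rw [mk_emptyCollection]; exact h.reg.pos)
  choose A0 hA0 using fun a => sel_one h tw (hP a) s
  have hfin : ∀ b, Finite {m : PUnit.{u+1} // (fun _ => hneK.some) m < b} :=
    fun b => inferInstance
  obtain ⟨X, v, f, hX, hXv, hXR, hXB⟩ := core2G h.reg h.unc h.pow (kp h) (ple h)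
    (N := PUnit.{u+1}) (fun _ => hneK.some)
    (fun b => lt_of_lt_of_le (Cardinal.lt_aleph0_of_finite _) h.reg.aleph0_le)
    (fun b => dp_finite h.unc _) (ι := fun _ => ι)
    (by
      rw [mk_sigma, Cardinal.sum_const, Cardinal.lift_id, Cardinal.lift_id, Cardinal.mk_punit,
        one_mul]
      exact tw.lt)
    hJ hJb
    (fun _ i x => {y | ∀ z, z < x → e.symm y ∈ RR (T i) s.1 ∧
      ∀ u ∈ (e.symm y).1, u ∉ s.1 → z < u})
    (fun a x => {y | ∀ z, z < x → e.symm y ∈ P a ∧ ∃ u ∈ (e.symm y).1, z < u})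
    (by
      intro _ i j hij
      obtain ⟨d, hd⟩ := almost_bdd h.reg (tw.dec i j hij)
      refine ⟨fun _ => d, fun x hx y _ hy z hz => ?_⟩
      have hdx := hx z hz
      refine ⟨⟨(hy z hz).1.1, (hy z hz).1.2.1, fun w hw hws => ?_⟩, (hy z hz).2⟩
      exact hd w ((hy z hz).1.2.2 w hw hws) ((hy d hdx).2 w hw hws).le)
    (by
      intro a b hab
      obtain ⟨d, hd⟩ := hd a b hab
      refine ⟨fun _ => d, fun x hx y _ hy z hz => ?_⟩
      have hdx := hx z hz
      refine ⟨?_, (hy z hz).2⟩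
      by_contra hya
      obtain ⟨u, hu, hdu⟩ := (hy d hdx).2
      exact absurd (hd (e.symm y) ⟨(hy z hz).1, hya⟩ u hu) (not_lt.2 hdu.le))
    (fun a => e '' (A0 a))
    (fun a => by rw [Cardinal.mk_image_eq e.injective, (hA0 a).card])
    (by
      intro a
      obtain ⟨d, hd⟩ := (small_iff e h.reg).1 ((hA0 a).inP PUnit.unit)
      obtain ⟨d1, hd1⟩ := (small_iff e h.reg).1 ((hA0 a).inR i0)
      choose nx hnx using noMax h.reg
      choose d2 hd2 using fun z => (small_iff e h.reg).1 ((hA0 a).inG (nx z))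
      refine ⟨fun z => max (max d d1) (d2 z), fun x hx y hyA hxy z hz => ?_⟩
      obtain ⟨t, ht, rfl⟩ := hyA
      rw [e.symm_apply_apply]
      have h0 : max (max d d1) (d2 z) < e t := (hx z hz).trans_le hxy
      have hP' : t ∈ P a := by
        by_contra hcon
        exact absurd (hd t ⟨ht, hcon⟩)
          (not_lt.2 (((le_max_left _ _).trans (le_max_left _ _)).trans h0.le))
      have hR : t ∈ RR (T i0) s.1 := by
        by_contra hcon
        exact absurd (hd1 t ⟨ht, hcon⟩)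
          (not_lt.2 (((le_max_right _ _).trans (le_max_left _ _)).trans h0.le))
      have hG : t ∈ GG (nx z) s.1 := by
        by_contra hcon
        exact absurd (hd2 z t ⟨ht, hcon⟩) (not_lt.2 ((le_max_right _ _).trans h0.le))
      obtain ⟨u, hu, hus⟩ := hR.2.1
      exact ⟨hP', u, hu, (hnx z).trans_le (hG u hu hus)⟩)
    (by
      intro a _ i
      obtain ⟨d1, hd1⟩ := (small_iff e h.reg).1 ((hA0 a).inR i)
      choose nx hnx using noMax h.reg
      choose d2 hd2 using fun z => (small_iff e h.reg).1 ((hA0 a).inG (nx z))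
      refine ⟨fun z => max d1 (d2 z), fun x hx y hyA hxy z hz => ?_⟩
      obtain ⟨t, ht, rfl⟩ := hyA
      rw [e.symm_apply_apply]
      have h1 : d1 < e t := lt_of_le_of_lt (le_max_left _ _) ((hx z hz).trans_le hxy)
      have h2 : d2 z < e t := lt_of_le_of_lt (le_max_right _ _) ((hx z hz).trans_le hxy)
      have hR : t ∈ RR (T i) s.1 := by
        by_contra hcon
        exact absurd (hd1 t ⟨ht, hcon⟩) (not_lt.2 h1.le)
      have hG : t ∈ GG (nx z) s.1 := by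
        by_contra hcon
        exact absurd (hd2 z t ⟨ht, hcon⟩) (not_lt.2 h2.le)
      exact ⟨hR, fun u hu hus => (hnx z).trans_le (hG u hu hus)⟩)
  -- the set of nodes
  let A : Set (Nd κ) := (fun x => e.symm (f x)) '' X
  have key : ∀ D : Set (Nd κ), (∀ᶠ x in atTop, x ∈ X → e.symm (f x) ∈ D) →
      #(↥(A \ D)) < κ := by
    intro D hD
    have h1 : #(↥{x | x ∈ X ∧ e.symm (f x) ∉ D}) < κ := by
      apply small_of_ev h.reg
      filter_upwards [hD] with x hx h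
      exact h.2 (hx h.1)
    refine lt_of_le_of_lt (mk_le_mk_of_subset ?_)
      (lt_of_le_of_lt (mk_image_le (f := fun x => e.symm (f x))) h1)
    rintro y ⟨⟨x, hx, rfl⟩, hy⟩
    exact ⟨x, ⟨hx, hy⟩, rfl⟩
  have hb0 : ∃ b0 b1 : KK κ, b0 < b1 := ⟨hneK.some, noMax h.reg _⟩
  obtain ⟨b0, b1, hb1⟩ := hb0
  refine ⟨A, ?_, fun a => key _ ?_, fun i => key _ ?_, fun c => key _ ?_⟩
  · refine le_antisymm ((mk_set_le A).trans (mkNd h).le) (not_lt.1 fun hlt => ?_)
    obtain ⟨d, hd⟩ := (small_iff e h.reg).1 hlt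
    obtain ⟨x, hx, hxX⟩ := (Filter.frequently_atTop.1 hX) d
    have := hd (e.symm (f x)) ⟨x, hxX, rfl⟩
    rw [e.apply_symm_apply] at this
    exact absurd this (not_lt.2 (hx.trans ((hXv x hxX).1.trans (hXv x hxX).2)))
  · filter_upwards [hXB a, eventually_ge_atTop b1] with x hx hbx hxX
    exact (hx hxX b0 (hb1.trans_le (hbx.trans (hXv x hxX).1))).1
  · filter_upwards [hXR PUnit.unit i, eventually_ge_atTop b1] with x hx hbx hxX
    exact (hx hxX b0 (hb1.trans_le (hbx.trans (hXv x hxX).1))).1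
  · obtain ⟨c', hc'⟩ := noMax h.reg c
    filter_upwards [hXR PUnit.unit i0, eventually_ge_atTop c'] with x hx hbx hxX
    exact fun y hy hys => ((hx hxX c (hc'.trans_le (hbx.trans (hXv x hxX).1))).2 y hy hys).le

end

end Pool.Agent.Lib.MP_eff308_lc.HT
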