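import Pool.Agent.Lib.MP_eff308_lc.HT.Ps

/-!
# Chains of end extensions
-/

open Cardinal Set Filter

universe u

namespace Pool.Agent.Lib.MP_eff308_lc.HT

open Pool.Agent.Lib.MP_eff308_lc.T

variable {κ : Cardinal.{u}}

/-- The union of `s` and the earlier values. -/
def un {W : Type u} [LT W] (s : Set (KK κ)) (f : W → Set (KK κ)) (c : W) : Set (KK κ) :=
  s ∪ ⋃ c' : {c' // c' < c}, f c'.1

theorem un_congr {W : Type u} [LT W] {s : Set (KK κ)} {f g : W → Set (KK κ)} {c : W}
    (h : ∀ j, j < c → f j = g j) : un s f c = un s g c := by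
  unfold un
  congr 1
  exact Set.iUnion_congr fun j => h j.1 j.2

theorem subset_un {W : Type u} [LT W] {s : Set (KK κ)} {f : W → Set (KK κ)} {c c' : W}
    (h : c' < c) : f c' ⊆ un s f c :=
  fun _ hx => Or.inr (Set.mem_iUnion.2 ⟨⟨c', h⟩, hx⟩)

/-- Values which end extend the union of the earlier ones form a chain. -/
theorem chain_le {W : Type u} [LinearOrder W] [WellFoundedLT W] (s : Set (KK κ))
    (f : W → Set (KK κ)) (hf : ∀ c, Le (un s f c) (f c)) :
    ∀ c, Le s (f c) ∧ ∀ c', c' < c → Le (f c') (f c) := by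
  intro c
  induction c using WellFoundedLT.induction with
  | ind c ih =>
    have hs : s ⊆ un s f c := Set.subset_union_left
    constructor
    · refine ⟨hs.trans (hf c).1, fun x hx y hy hxy => ?_⟩
      have hxu := (hf c).2 x hx y (hs hy) hxy
      rcases hxu with hxs | hxu
      · exact hxs
      · obtain ⟨⟨c', hc'⟩, hxc'⟩ := Set.mem_iUnion.1 hxu
        exact (ih c' hc').1.2 x hxc' y hy hxy
    · intro c1 hc1
      refine ⟨(subset_un hc1).trans (hf c).1, fun x hx y hy hxy => ?_⟩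
      have hxu := (hf c).2 x hx y (subset_un hc1 hy) hxy
      rcases hxu with hxs | hxu
      · exact (ih c1 hc1).1.1 hxs
      · obtain ⟨⟨c2, hc2⟩, hxc2⟩ := Set.mem_iUnion.1 hxu
        rcases lt_trichotomy c2 c1 with hlt | heq | hlt
        · exact ((ih c1 hc1).2 c2 hlt).1 hxc2
        · subst heq
          exact hxc2
        · exact ((ih c2 hc2).2 c1 hlt).2 x hxc2 y hy hxy

/-- The union of all values end extends each of them. -/
theorem le_iUnion {W : Type u} [LinearOrder W] (s : Set (KK κ)) (f : W → Set (KK κ))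
    (hf : ∀ c, Le s (f c) ∧ ∀ c', c' < c → Le (f c') (f c)) (c : W) :
    Le (f c) (⋃ c, f c) ∧ Le s (⋃ c, f c) := by
  constructor
  · refine ⟨Set.subset_iUnion f c, fun x hx y hy hxy => ?_⟩
    obtain ⟨c2, hc2⟩ := Set.mem_iUnion.1 hx
    rcases lt_trichotomy c2 c with hlt | heq | hlt
    · exact ((hf c).2 c2 hlt).1 hc2
    · subst heq
      exact hc2
    · exact ((hf c2).2 c hlt).2 x hc2 y hy hxy
  · refine ⟨(hf c).1.1.trans (Set.subset_iUnion f c), fun x hx y hy hxy => ?_⟩
    obtain ⟨c2, hc2⟩ := Set.mem_iUnion.1 hx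
    exact (hf c2).1.2 x hc2 y hy hxy

/-- A new element of the union is new at some stage. -/
theorem exists_stage {W : Type u} [LinearOrder W] [WellFoundedLT W] {s : Set (KK κ)}
    {f : W → Set (KK κ)} {x : KK κ} (hx : x ∈ ⋃ c, f c) (hxs : x ∉ s) :
    ∃ c, x ∈ f c ∧ x ∉ un s f c := by
  obtain ⟨c, hc, hmin⟩ := (wellFounded_lt (α := W)).has_min {c | x ∈ f c}
    (Set.mem_iUnion.1 hx)
  refine ⟨c, hc, fun hxu => ?_⟩
  rcases hxu with h1 | h1
  · exact hxs h1
  · obtain ⟨⟨c', hc'⟩, hxc'⟩ := Set.mem_iUnion.1 h1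
    exact hmin c' hxc' hc'

/-- The union of the earlier values is bounded when they are nodes and few. -/
theorem un_bdd (h : Ctx κ) {W : Type u} [LT W] (s : Nd κ) (f : W → Nd κ) (c : W)
    (hc : #{c' // c' < c} < κ) : ∃ b, ∀ x ∈ un s.1 (fun c => (f c).1) c, x < b := by
  obtain ⟨b1, hb1⟩ := s.2
  obtain ⟨b2, hb2⟩ := bd_iUnion h hc (fun c' => (f c'.1).1) (fun c' => (f c'.1).2)
  refine ⟨max b1 b2, fun x hx => ?_⟩
  rcases hx with hx | hx
  · exact (hb1 x hx).trans_le (le_max_left _ _)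
  · exact (hb2 x hx).trans_le (le_max_right _ _)

end Pool.Agent.Lib.MP_eff308_lc.HT
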